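import Mathlib

/-!
Project MV (MP_365f4a_gt): definitions.
Configurations (ribbon graph + pairing of its faces), regularised volumes, polynomials R_K.
-/

namespace Pool.Agent.Helper60.MV

open Finset MeasureTheory Filter Topology

/-! ## Permutations, cycles, pairings -/

/-- the set of cycles of a permutation (fixed points included) -/
def Cyc {H : Type} (g : Equiv.Perm H) : Type := Quotient (Equiv.Perm.SameCycle.setoid g)

/-- the cycle of an element -/
def cyc {H : Type} (g : Equiv.Perm H) (h : H) : Cyc g := Quotient.mk _ h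

/-- a representative of a cycle -/
noncomputable def Cyc.rep {H : Type} {g : Equiv.Perm H} (c : Cyc g) : H := Quotient.out c

noncomputable instance {H : Type} [Fintype H] (g : Equiv.Perm H) : Fintype (Cyc g) :=
  haveI : Finite (Cyc g) := Quotient.finite _
  Fintype.ofFinite _

noncomputable instance {H : Type} (g : Equiv.Perm H) : DecidableEq (Cyc g) := Classical.decEq _

/-- fixed point free involution -/
structure IsPairing {H : Type} (τ : Equiv.Perm H) : Prop where
  invol : ∀ h, τ (τ h) = h
  fpf : ∀ h, τ h ≠ h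

/-- a configuration on `(H, σ)`: the edges `τ` of the ribbon graph with vertices the cycles of
`σ` and faces the cycles of `σ * τ`, and a pairing `β` of the faces. -/
structure Conf {H : Type} (σ : Equiv.Perm H) where
  τ : Equiv.Perm H
  hτ : IsPairing τ
  β : Equiv.Perm (Cyc (σ * τ))
  hβ : IsPairing β

namespace Conf

variable {H : Type} {σ : Equiv.Perm H}

/-- edges -/
abbrev Edge (R : Conf σ) : Type := Cyc R.τ

/-- faces -/
abbrev Face (R : Conf σ) : Type := Cyc (σ * R.τ)

/-- cylinders -/
abbrev Cyl (R : Conf σ) : Type := Cyc R.β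

/-- the edge of a half-edge -/
def edge (R : Conf σ) (h : H) : R.Edge := cyc R.τ h

/-- the face of a half-edge -/
def face (R : Conf σ) (h : H) : R.Face := cyc (σ * R.τ) h

/-- perimeter of a face -/
noncomputable def per [Fintype H] (R : Conf σ) {V : Type} [AddCommMonoid V] (x : R.Edge → V)
    (f : R.Face) : V :=
  ∑ h : H, if R.face h = f then x (R.edge h) else 0

/-- connectedness (of the surface): generated by `σ`, `τ` and the pairing of faces -/
def Conn (R : Conf σ) : Prop :=
  ∀ h h' : H, Relation.EqvGen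
    (fun a b => b = σ a ∨ b = R.τ a ∨ R.face b = R.β (R.face a)) h h'

/-- there is a positive integral length function for which paired faces have equal perimeters -/
def Good [Fintype H] (R : Conf σ) : Prop :=
  ∃ u : R.Edge → ℕ, (∀ e, 0 < u e) ∧ ∀ f, R.per u f = R.per u (R.β f)

end Conf

/-! ## The kernel and the regularised volumes -/

/-- `w / (exp w - 1)` -/
noncomputable def phi (w : ℝ) : ℝ := if w = 0 then 1 else w / (Real.exp w - 1)

/-- tent function -/
noncomputable def tent (x : ℝ) : ℝ := max 0 (1 - |x|)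

/-- rescaled tent, total mass 1, support `[-ε, ε]` -/
noncomputable def tentE (ε x : ℝ) : ℝ := ε⁻¹ * tent (x / ε)

/-- the kernel (an approximation of `phi p * δ (p - p')`) -/
noncomputable def kern (ε p p' : ℝ) : ℝ :=
  ∫ a : ℝ, phi a * tentE ε (p - a) * tentE ε (p' - a)

/-- regularised volume of an incidence matrix `P` (`κ` cylinders, two faces each, `ι` edges) -/
noncomputable def AM {ι κ : Type} [Fintype ι] [Fintype κ] (P : κ → Bool → ι → ℕ) (ε : ℝ)
    (ξ : κ → Bool → ℝ) : ℝ :=
  ∫ x in {x : ι → ℝ | ∀ e, 0 < x e},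
    ∏ c : κ, kern ε (∑ e, (P c false e : ℝ) * x e + ξ c false)
      (∑ e, (P c true e : ℝ) * x e + ξ c true)

/-- discrete volume of an incidence matrix -/
noncomputable def SM {ι κ : Type} [Fintype ι] [Fintype κ] (P : κ → Bool → ι → ℕ) (t : ℝ) : ℝ :=
  by
    classical
    exact ∑' l : ι → ℕ+,
      if ∀ c, ∑ e, P c false e * (l e : ℕ) = ∑ e, P c true e * (l e : ℕ) then
        ∏ c : κ, ((∑ e, P c false e * (l e : ℕ) : ℕ) : ℝ) /
          (Real.exp (t * ((∑ e, P c false e * (l e : ℕ) : ℕ) : ℝ)) - 1)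
      else 0

namespace Conf

variable {H : Type} {σ : Equiv.Perm H}

/-- the two faces of a cylinder -/
noncomputable def cface (R : Conf σ) (c : R.Cyl) (b : Bool) : R.Face :=
  if b then R.β c.rep else c.rep

/-- the incidence matrix of a configuration -/
noncomputable def P [Fintype H] (R : Conf σ) : R.Cyl → Bool → R.Edge → ℕ := fun c b e => by
  classical
  exact (univ.filter (fun h : H => R.face h = R.cface c b ∧ R.edge h = e)).card

/-- regularised volume of a configuration, with shifts `ξ` of the perimeters -/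
noncomputable def A [Fintype H] (R : Conf σ) (ε : ℝ) (ξ : R.Face → ℝ) : ℝ :=
  AM R.P ε (fun c b => ξ (R.cface c b))

/-- the generating function of the lattice points of a configuration -/
noncomputable def S [Fintype H] (R : Conf σ) (t : ℝ) : ℝ := SM R.P t

/-- limit of the regularised volumes -/
noncomputable def limA [Fintype H] (R : Conf σ) : ℝ :=
  limUnder (𝓝[>] (0:ℝ)) (fun ε => R.A ε 0)

end Conf

theorem conf_finite {H : Type} [Finite H] (σ : Equiv.Perm H) : Finite (Conf σ) := by
  classical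
  haveI : Fintype H := Fintype.ofFinite H
  haveI : ∀ τ : Equiv.Perm H, Finite (Equiv.Perm (Cyc (σ * τ))) := fun τ => inferInstance
  refine Finite.of_injective
    (fun R : Conf σ => (⟨R.τ, R.β⟩ : Σ τ : Equiv.Perm H, Equiv.Perm (Cyc (σ * τ)))) ?_
  rintro ⟨τ, hτ, β, hβ⟩ ⟨τ', hτ', β', hβ'⟩ h
  simp only [Sigma.mk.injEq] at h
  obtain ⟨h1, h2⟩ := h
  subst h1
  simp only [heq_eq_eq] at h2
  subst h2
  rfl

noncomputable instance {H : Type} [Fintype H] (σ : Equiv.Perm H) : Fintype (Conf σ) :=
  haveI := conf_finite σ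
  Fintype.ofFinite _

/-- sum of the regularised volumes of all configurations -/
noncomputable def ZZ {H : Type} [Fintype H] (σ : Equiv.Perm H) (ε : ℝ) : ℝ :=
  ∑ R : Conf σ, R.A ε 0

/-! ## Types -/

/-- half-edges of type `K` -/
abbrev HK {ρ : Type} (K : ρ → ℕ) : Type := Σ i : ρ, Fin (K i)

/-- rotation around the vertices -/
def rot {ρ : Type} (K : ρ → ℕ) : Equiv.Perm (HK K) :=
  Equiv.sigmaCongrRight (fun i => finRotate (K i))

/-- connected good volume -/
noncomputable def Yconn {ρ : Type} [Fintype ρ] (K : ρ → ℕ) : ℝ := by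
  classical
  exact ∑ R ∈ univ.filter (fun R : Conf (rot K) => R.Conn ∧ R.Good), R.limA

/-! ## Square-tiled surfaces -/

/-- a square-tiled surface made of `L` squares (`2 L` oriented squares), given by the pairing `a`
of right sides, the rotation `ι` by `π`, the pairing `b` of top sides; its vertices of type `K`
are marked by `x`. -/
structure IsSurf {X ρ : Type} (K : ρ → ℕ) (a ι b : Equiv.Perm X) (x : ρ → X) : Prop where
  ha : IsPairing a
  hι : IsPairing ι
  hb : IsPairing b
  conn : ∀ y z : X, ∃ g ∈ Subgroup.closure ({a, ι, b} : Set (Equiv.Perm X)), g y = z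
  mark : ∀ i, Function.minimalPeriod (a * ι * b) (x i) = K i
  dist : ∀ i j, i ≠ j → ¬ (a * ι * b).SameCycle (x i) (x j)
  rest : ∀ y, (∀ i, ¬ (a * ι * b).SameCycle (x i) y) → Function.minimalPeriod (a * ι * b) y = 2

/-- number of labelled marked square-tiled surfaces with `L` squares, divided by `(2L)!` -/
noncomputable def cL {ρ : Type} (K : ρ → ℕ) (L : ℕ) : ℝ :=
  (Nat.card {q : (Equiv.Perm (Fin (2 * L)) × Equiv.Perm (Fin (2 * L)) × Equiv.Perm (Fin (2 * L))) ×
    (ρ → Fin (2 * L)) // IsSurf K q.1.1 q.1.2.1 q.1.2.2 q.2} : ℝ) / ((2 * L).factorial : ℝ)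

/-! ## Polynomials -/

/-- Pfaffian of an array along a list (expansion along the first entry) -/
def pfL {α R : Type} [CommRing R] (A : α → α → R) : List α → R
  | [] => 1
  | x :: xs => ∑ j : Fin xs.length, (-1) ^ (j : ℕ) * A x (xs.get j) * pfL A (xs.eraseIdx j)
termination_by l => l.length
decreasing_by
  simp only [List.length_cons, List.length_eraseIdx]
  split <;> omega

/-- Hafnian of an array along a list -/
def hfL {α R : Type} [CommSemiring R] (A : α → α → R) : List α → R
  | [] => 1
  | x :: xs => ∑ j : Fin xs.length, A x (xs.get j) * hfL A (xs.eraseIdx j)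
termination_by l => l.length
decreasing_by
  simp only [List.length_cons, List.length_eraseIdx]
  split <;> omega

/-- `∑_{n ≥ 1} n^{-M}` -/
noncomputable def zet (M : ℕ) : ℝ := ∑' n : ℕ, 1 / ((n : ℝ) + 1) ^ M

/-- the covariance -/
noncomputable def Cov (k l : ℕ) : ℝ :=
  ((2 * k + 2 * l + 1).factorial : ℝ) * zet (2 * k + 2 * l + 2) /
    (((2 * k).factorial : ℝ) * ((2 * l).factorial : ℝ))

/-- the Wick functional on polynomials in `t_0, t_1, ...` -/
noncomputable def Wick (f : MvPolynomial ℕ ℝ) : ℝ :=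
  ∑ m ∈ f.support, f.coeff m * hfL Cov m.toMultiset.toList

/-- `q_n`: coefficients of `exp (∑ 2 t_k y^(2k+1)/(2k+1))` -/
noncomputable def qP : ℕ → MvPolynomial ℕ ℝ
  | 0 => 1
  | n + 1 => ∑ k : Fin (n / 2 + 1),
      MvPolynomial.C (2 / ((n : ℝ) + 1)) * MvPolynomial.X (k : ℕ) * qP (n - 2 * k)
termination_by n => n
decreasing_by omega

/-- Schur's `Q_{(a,b)}` for `a > b` -/
noncomputable def QQ (a b : ℕ) : MvPolynomial ℕ ℝ :=
  qP a * qP b + 2 * ∑ j ∈ range b, (-1) ^ (j + 1) * (qP (a + (j + 1)) * qP (b - (j + 1)))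

/-- decreasing list of a finite set, completed by `0` to even length -/
noncomputable def dl (S : Finset ℕ) : List ℕ :=
  (S.sort (· ≥ ·)) ++ (if S.card % 2 = 0 then [] else [0])

/-- Pochhammer `(1/2)_n` -/
noncomputable def cc (n : ℕ) : ℝ := ∏ i ∈ range n, ((i : ℝ) + 1 / 2)

/-- two-point function of neutral fermions -/
noncomputable def zf (m n : ℤ) : ℝ :=
  if m + n = 0 then (if m = 0 then 1 else if 0 < m then 2 * (-1) ^ m.natAbs else 0) else 0

/-- total size of the `K i` assigned to `a` -/
def asg {ρ : Type} [Fintype ρ] {l : ℕ} (K : ρ → ℕ) (f : ρ → Fin l) (a : Fin l) : ℕ :=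
  ∑ i, if f i = a then K i else 0

/-- the numbers `X^{2S}_K` -/
noncomputable def XK {ρ : Type} [Fintype ρ] (K : ρ → ℕ) (S : List ℕ) : ℝ := by
  classical
  exact ∑ f : ρ → Fin S.length,
    pfL (fun a b => zf ((asg K f a : ℤ) - 2 * (S.get a : ℤ)) ((asg K f b : ℤ) - 2 * (S.get b : ℤ)))
      (List.finRange S.length)

/-- finite sets of positive integers with sum `E` -/
def stp (E : ℕ) : Finset (Finset ℕ) :=
  ((Finset.Icc 1 E).powerset).filter (fun S => ∑ a ∈ S, a = E)

/-- the polynomial `R_K` -/
noncomputable def Rpoly {ρ : Type} [Fintype ρ] (K : ρ → ℕ) : MvPolynomial ℕ ℝ :=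
  ∑ S ∈ stp ((∑ i, K i) / 2),
    MvPolynomial.C ((1 / 2) ^ S.card * (∏ a ∈ S, cc a) * XK K (dl S)) * pfL QQ (dl S)

/-- the polynomial volume -/
noncomputable def Ypoly {ρ : Type} [Fintype ρ] (K : ρ → ℕ) : ℝ := Wick (Rpoly K)

/-- sum over all pairings and all face labellings by `Fin N` -/
noncomputable def PK {ρ : Type} [Fintype ρ] (K : ρ → ℕ) (N : ℕ) (s : Fin N → ℝ) : ℝ := by
  classical
  exact ∑ τ ∈ univ.filter (fun τ : Equiv.Perm (HK K) => IsPairing τ),
    ∑ lab ∈ univ.filter (fun lab : HK K → Fin N => ∀ h, lab ((rot K * τ) h) = lab h),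
      ∏ e : Cyc τ, 1 / (s (lab e.rep) + s (lab (τ e.rep)))

end Pool.Agent.Helper60.MV
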