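import Pool.Agent.Helper60.MV.Defs

/-!
Project MV: definitions for the wall analysis (block C), the AA configurations and the numerics.
-/

namespace Pool.Agent.Helper60.MV

open Finset MeasureTheory Filter Topology

namespace Conf

variable {H : Type} {σ : Equiv.Perm H}

/-- a leaf at the edge `{x, τ x}`: `μ` is a face function, odd under `β`, odd under `τ` except at
this edge, zero at `x` and one at `τ x` -/
structure IsLeaf (R : Conf σ) (x : H) (μ : H → ℤ) : Prop where
  face : ∀ h h', R.face h = R.face h' → μ h = μ h'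
  beta : ∀ h h', R.β (R.face h) = R.face h' → μ h' = - μ h
  tau : ∀ h, h ≠ x → h ≠ R.τ x → μ (R.τ h) = - μ h
  zero : μ x = 0
  one : μ (R.τ x) = 1

/-- a face inside some leaf -/
def LeafFace (R : Conf σ) (f : R.Face) : Prop :=
  ∃ x μ, R.IsLeaf x μ ∧ ∃ h, R.face h = f ∧ μ h ≠ 0

/-- AA configurations: bicolourable except at the edge `{x, τ x}`, whose ends are in different
cycles of `σ` and have the same colour -/
structure IsAA (R : Conf σ) (x : H) (μ : H → ℤ) : Prop where
  face : ∀ h h', R.face h = R.face h' → μ h = μ h'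
  beta : ∀ h h', R.β (R.face h) = R.face h' → μ h' = - μ h
  tau : ∀ h, h ≠ x → h ≠ R.τ x → μ (R.τ h) = - μ h
  one : μ x = 1
  one' : μ (R.τ x) = 1
  vals : ∀ h, μ h = 1 ∨ μ h = -1
  diff : ¬ σ.SameCycle x (R.τ x)

def AA (R : Conf σ) : Prop := ∃ x μ, R.IsAA x μ

/-- crude bound of the regularised volume -/
noncomputable def crude [Fintype H] (R : Conf σ) : ℝ :=
  10 ^ (Fintype.card R.Cyl) * (10 / 9) ^ (Fintype.card R.Edge)

end Conf

/-- all cycles odd -/
def AllOdd {H : Type} (σ : Equiv.Perm H) : Prop := ∀ h, Odd (Function.minimalPeriod σ h)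

/-- upper bound for the sum over connected configurations of the regularised volumes with small
shifts vanishing on the leaf faces -/
def UBs {H : Type} [Fintype H] (σ : Equiv.Perm H) (B : ℝ) : Prop :=
  ∀ C : ℝ, 0 ≤ C → ∀ δ : ℝ, 0 < δ → ∀ᶠ ε in 𝓝[>] (0:ℝ),
    ∀ ξ : (R : Conf σ) → R.Face → ℝ,
      (∀ R f, 0 ≤ ξ R f ∧ ξ R f ≤ C * ε) → (∀ R f, R.LeafFace f → ξ R f = 0) →
      (by classical exact ∑ R ∈ univ.filter (fun R : Conf σ => R.Conn), R.A ε (ξ R)) ≤ B + δ

def UB {ρ : Type} [Fintype ρ] (K : ρ → ℕ) (B : ℝ) : Prop := UBs (rot K) B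

/-- the type of a leaf with its leg -/
def leg (m : ℕ) : Bool → ℕ := fun b => if b then 2 * m + 1 else 1

/-- the type with the cycle `i` shortened by `2 m + 2` -/
noncomputable def red {ρ : Type} (K : ρ → ℕ) (i : ρ) (m : ℕ) : ρ → ℕ := by
  classical
  exact Function.update K i (K i - (2 * m + 2))

/-- the leaf sum -/
noncomputable def leafSum {ρ : Type} [Fintype ρ] (K : ρ → ℕ) (B : ρ → ℕ → ℝ) : ℝ :=
  ∑ i, ∑ m ∈ (Finset.range (K i)).filter (fun m => 1 ≤ m ∧ 2 * m + 2 < K i),
    (K i : ℝ) * (2 * Ypoly (leg m)) * B i m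

/-- the bound for the disconnected configurations -/
noncomputable def disc {ρ : Type} [Fintype ρ] (K : ρ → ℕ) : ℝ := by
  classical
  exact ∑ I ∈ (univ : Finset ρ).powerset.filter (fun I => I.Nonempty ∧ Iᶜ.Nonempty),
    Ypoly (fun i : {i // i ∈ I} => K i) * Ypoly (fun i : {i // i ∈ Iᶜ} => K i)

/-- the bound for the AA configurations -/
noncomputable def AAc {ρ : Type} [Fintype ρ] (K : ρ → ℕ) : ℝ := by
  classical
  exact ∑ R ∈ univ.filter (fun R : Conf (rot K) => R.Conn ∧ R.AA), R.crude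

/-- `b(E) = 2^E (E-1)!` -/
noncomputable def bE (E : ℕ) : ℝ := 2 ^ E * ((E - 1).factorial : ℝ)

/-- main term -/
noncomputable def mainE (E : ℕ) : ℝ := 1 / 2 * cc E * Wick (qP E)

/-- number of ones -/
def ones {ρ : Type} [Fintype ρ] (K : ρ → ℕ) : ℕ := (univ.filter (fun i => K i = 1)).card

end Pool.Agent.Helper60.MV
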