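import Pool.Agent.Helper60.MV.DefsC

/-!
Project MV: the statements of the blocks (each will be proved in its own file).
-/

namespace Pool.Agent.Helper60.MV.Iface

open Finset MeasureTheory Filter Topology Pool.Agent.Helper60.MV

/-- BLOCK A -/
theorem blockA {ρ : Type} [Fintype ρ] [Nonempty ρ] (K : ρ → ℕ) (hK : ∀ i, Odd (K i))
    (t : ℝ) (ht : 0 < t) :
    HasSum (fun L : ℕ => cL K L * Real.exp (-(t * L)))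
      (by classical exact ∑ R ∈ univ.filter (fun R : Conf (rot K) => R.Conn), R.S t) := by
  sorry

/-- BLOCK B1 (matrix layer) -/
theorem blockB1 {ι κ : Type} [Fintype ι] [Fintype κ] [Nonempty κ] [DecidableEq κ]
    (P : κ → Bool → ι → ℕ) (hcol : ∀ e, ∑ c, (P c false e + P c true e) = 2)
    (hgood : ∃ u : ι → ℕ, (∀ e, 0 < u e) ∧ ∀ c, ∑ e, P c false e * u e = ∑ e, P c true e * u e)
    (him : ∀ c c', ∃ z : ι → ℤ, ∀ c'', ∑ e, ((P c'' false e : ℤ) - P c'' true e) * z e =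
      (if c'' = c then 1 else 0) + (if c'' = c' then 1 else 0)) :
    ∃ a : ℝ, Tendsto (fun t => t ^ (Fintype.card ι) * SM P t) (𝓝[>] (0:ℝ)) (𝓝 (2 * a)) ∧
      Tendsto (fun ε => AM P ε 0) (𝓝[>] (0:ℝ)) (𝓝 a) := by
  sorry

/-- BLOCK B2 (Karamata) -/
theorem karamata (c : ℕ → ℝ) (hc : ∀ n, 0 ≤ c n) (E : ℕ) (hE : 1 ≤ E) (C : ℝ) (F : ℝ → ℝ)
    (hF : ∀ t, 0 < t → HasSum (fun n : ℕ => c n * Real.exp (-(t * n))) (F t))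
    (hlim : Tendsto (fun t => t ^ E * F t) (𝓝[>] (0:ℝ)) (𝓝 C)) :
    Tendsto (fun X : ℕ => (∑ n ∈ range (X + 1), c n) / (X : ℝ) ^ E) atTop
      (𝓝 (C / (E.factorial : ℝ))) := by
  sorry

/-- BLOCK B -/
theorem blockB {ρ : Type} [Fintype ρ] [Nonempty ρ] (K : ρ → ℕ) (hK : ∀ i, Odd (K i)) (E : ℕ)
    (hE : ∑ i, K i = 2 * E) :
    Tendsto (fun N : ℕ => (∑ L ∈ range (2 * N + 1), cL K L) / (N : ℝ) ^ E) atTop
      (𝓝 (2 ^ E * (2 * Yconn K) / (E.factorial : ℝ))) := by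
  sorry

/-- BLOCK D -/
theorem blockD {ρ : Type} [Fintype ρ] (K : ρ → ℕ) (hK : ∀ i, Odd (K i)) (E : ℕ)
    (hE : ∑ i, K i = 2 * E) (N : ℕ) (hN : Even N) (s : Fin N → ℝ) (hs : ∀ i, 0 < s i) :
    PK K N s = MvPolynomial.eval (fun k => ∑ i, (1 / s i) ^ (2 * k + 1)) (Rpoly K) := by
  sorry

/-- BLOCK P -/
theorem blockP {ρ : Type} [Fintype ρ] (K : ρ → ℕ) (hK : ∀ i, Odd (K i)) (E : ℕ)
    (hE : ∑ i, K i = 2 * E) :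
    Tendsto (fun ε => ZZ (rot K) ε) (𝓝[>] (0:ℝ)) (𝓝 (Ypoly K)) := by
  sorry

/-- BLOCK U -/
theorem blockU (M : ℕ) : ∃ C : ℝ, 0 < C ∧ ∀ (k : ℕ) {ρ : Type} [Fintype ρ] (K : ρ → ℕ)
    (_ : ∀ i, Odd (K i)) (E : ℕ) (_ : ∑ i, K i = 2 * E) (_ : 1 ≤ E) (_ : ones K ≤ M + k),
    |Ypoly K - mainE E| ≤ C * (C * (E : ℝ) ^ (1 / 3 : ℝ)) ^ k * (E : ℝ) ^ (-(1 / 2) : ℝ) * bE E := by
  sorry

theorem mainE_even : Tendsto (fun E : ℕ => mainE (2 * E) / bE (2 * E)) atTop (𝓝 (1 / Real.pi)) := by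
  sorry

theorem mainE_odd (E : ℕ) (hE : Odd E) : mainE E = 0 := by
  sorry

/-- BLOCK C -/
theorem C_up {ρ : Type} [Fintype ρ] (K : ρ → ℕ) (hK : ∀ i, Odd (K i)) (E : ℕ)
    (hE : ∑ i, K i = 2 * E) (hρ : 2 ≤ Fintype.card ρ) : Yconn K ≤ Ypoly K := by
  sorry

theorem C_rec {ρ : Type} [Fintype ρ] (K : ρ → ℕ) (hK : ∀ i, Odd (K i)) (E : ℕ)
    (hE : ∑ i, K i = 2 * E) (hρ : 2 ≤ Fintype.card ρ) (B : ρ → ℕ → ℝ) (hB : ∀ i m, 0 ≤ B i m)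
    (h : ∀ i m, 1 ≤ m → 2 * m + 2 < K i → UB (red K i m) (B i m)) :
    UB K (Ypoly K + AAc K + leafSum K B) := by
  sorry

theorem C_low {ρ : Type} [Fintype ρ] (K : ρ → ℕ) (hK : ∀ i, Odd (K i)) (E : ℕ)
    (hE : ∑ i, K i = 2 * E) (hρ : 2 ≤ Fintype.card ρ) (B : ρ → ℕ → ℝ) (hB : ∀ i m, 0 ≤ B i m)
    (h : ∀ i m, 1 ≤ m → 2 * m + 2 < K i → UB (red K i m) (B i m)) :
    Ypoly K - disc K - AAc K - leafSum K B ≤ Yconn K := by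
  sorry

theorem UB_odd {ρ : Type} [Fintype ρ] (K : ρ → ℕ) (hK : ∀ i, Odd (K i)) (E : ℕ)
    (hE : ∑ i, K i = 2 * E) (hodd : Odd E) : UB K 0 := by
  sorry

/-- BLOCK AA -/
theorem AAc_eq_zero {ρ : Type} [Fintype ρ] (K : ρ → ℕ) (hK : ∀ i, Odd (K i))
    (hρ : 3 ≤ Fintype.card ρ) : AAc K = 0 := by
  sorry

theorem AAc_le : ∃ C : ℝ, 0 < C ∧ ∀ {ρ : Type} [Fintype ρ] (K : ρ → ℕ) (_ : ∀ i, Odd (K i))
    (E : ℕ) (_ : ∑ i, K i = 2 * E) (_ : 1 ≤ E), AAc K ≤ C * (19 / 10) ^ E * (E.factorial : ℝ) := by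
  sorry

/-- BLOCK N -/
theorem blockN (M : ℕ) (δ : ℝ) (hδ : 0 < δ) : ∃ E₀ : ℕ, ∀ {ρ : Type} [Fintype ρ] (K : ρ → ℕ)
    (_ : ∀ i, Odd (K i)) (E : ℕ) (_ : ∑ i, K i = 2 * E) (_ : E₀ ≤ E) (_ : Even E)
    (_ : ones K ≤ M), |Yconn K / (bE E / Real.pi) - 1| ≤ δ := by
  sorry

end Pool.Agent.Helper60.MV.Iface
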